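import Pool.Agent.helper44.EX.Spec

/-!
# Project ex (MP_70a088_an), module RTE: the branch of the `n`-th root
-/

set_option autoImplicit false

open Complex Metric Set Filter Topology MeasureTheory Pool.Agent.helper98.ILF

noncomputable section

namespace EX

lemma RTE_slit {a b : ℂ} (ha : 0 < a.re) (hb : 0 < b.re) : a / b ∈ slitPlane := by
  have hb0 : b ≠ 0 := by
    intro h
    rw [h] at hb
    simp at hb
  rw [mem_slitPlane_iff]
  by_contra hcon
  push Not at hcon
  obtain ⟨h1, h2⟩ := hcon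
  have h3 : a = (((a / b).re : ℝ) : ℂ) * b := by
    have h4 : a / b = (((a / b).re : ℝ) : ℂ) := by
      apply Complex.ext
      · simp
      · rw [h2]; simp
    rw [← h4, div_mul_cancel₀ _ hb0]
  have h5 : a.re = (a / b).re * b.re := by
    conv_lhs => rw [h3]
    rw [Complex.re_ofReal_mul]
  have h6 : (a / b).re * b.re ≤ 0 := mul_nonpos_of_nonpos_of_nonneg h1 hb.le
  linarith

lemma RTE_re {u : ℂ} (hu : ‖u‖ < 1) : 0 < (1 - u).re := by
  have h := Complex.re_le_norm u
  rw [Complex.sub_re, Complex.one_re]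
  linarith

/-- **RTE**. -/
theorem RTE (hRTL : RTL_stmt) (hMOB : MOB_stmt) (hRHO : RHO_stmt) : RTE_stmt := by
  intro n hn
  obtain ⟨g, hg, hgn, hroot⟩ := hRTL n hn
  refine ⟨g, hg, hgn, ?_⟩
  intro R z₀ w hR hRz hz₀ hw
  have hn0 : n ≠ 0 := by omega
  have hz1 : ‖z₀‖ < 1 := mem_ball_zero_iff.1 hz₀
  have hz0 : z₀ ≠ 0 := by
    intro h
    rw [h, norm_zero] at hRz
    linarith
  have hnz : -z₀ ∈ ball (0 : ℂ) 1 := by
    rw [mem_ball_zero_iff, norm_neg]; exact hz1
  have hw0 : w ≠ 0 := by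
    intro h
    rw [h, zero_pow hn0] at hw
    exact hz0 (neg_eq_zero.1 hw.symm)
  have hw1 : w ∈ ball (0 : ℂ) 1 := by
    rw [mem_ball_zero_iff]
    by_contra hcon
    push Not at hcon
    have h1 : (1 : ℝ) ≤ ‖w‖ ^ n := one_le_pow₀ hcon
    rw [← norm_pow, hw, norm_neg] at h1
    linarith
  obtain ⟨hden, hdiff, hmaps, -, hm0, -, hinv, -, -⟩ := hMOB (-z₀) hnz
  obtain ⟨-, hrho0, hrho1, -⟩ := hRHO
  have hball : ∀ z ∈ ball (0 : ℂ) R, z ∈ ball (0 : ℂ) 1 := fun z hz =>
    ball_subset_ball (hRz.trans hz1.le) hz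
  -- the quotient
  set y : ℂ → ℂ := fun z => tau (-z₀) z / (-z₀) with hy
  have hwy : ∀ z, w ^ n * y z = tau (-z₀) z := by
    intro z
    rw [hw, hy]
    simp only
    rw [mul_div_cancel₀ _ (neg_ne_zero.2 hz0)]
  have hslit : ∀ z ∈ ball (0 : ℂ) R, y z ∈ slitPlane := by
    intro z hz
    have hzR : ‖z‖ < R := mem_ball_zero_iff.1 hz
    have hz1' : ‖z‖ < 1 := mem_ball_zero_iff.1 (hball z hz)
    have hd := hden z (hball z hz)
    have e : y z = (1 - z / z₀) / (1 - (starRingEnd ℂ) z₀ * z) := by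
      rw [hy]
      simp only
      unfold tau
      rw [map_neg] at hd ⊢
      have hd' : 1 - (starRingEnd ℂ) z₀ * z ≠ 0 := by
        intro h
        apply hd
        rw [← h]
        ring
      have hd2 : 1 + -(starRingEnd ℂ) z₀ * z = 1 - (starRingEnd ℂ) z₀ * z := by ring
      rw [hd2]
      field_simp
      ring
    rw [e]
    refine RTE_slit (RTE_re ?_) (RTE_re ?_)
    · rw [norm_div, div_lt_one (by positivity)]
      linarith
    · rw [norm_mul, RCLike.norm_conj]
      calc ‖z₀‖ * ‖z‖ ≤ 1 * ‖z‖ := mul_le_mul_of_nonneg_right hz1.le (norm_nonneg _)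
        _ < 1 := by linarith
  refine ⟨fun z => w * y z ^ ((n : ℂ)⁻¹), ?_, ?_, ?_, ?_⟩
  · have h1 : DifferentiableOn ℂ y (ball 0 R) := by
      rw [hy]
      exact (hdiff.mono fun z hz => hball z hz).div_const _
    exact (h1.cpow (differentiableOn_const _) hslit).const_mul w
  · intro z hz
    have h1 : ‖w ^ n * y z‖ < 1 := by
      rw [hwy]
      exact mem_ball_zero_iff.1 (hmaps (hball z hz))
    exact mem_ball_zero_iff.2 (hroot w hw1 hw0 (y z) (hslit z hz) h1).1
  · have h1 : y 0 = 1 := by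
      rw [hy]
      simp only
      rw [hm0, div_self (neg_ne_zero.2 hz0)]
    simp only [h1, one_cpow, mul_one]
  · intro z hz
    have h1 : ‖w ^ n * y z‖ < 1 := by
      rw [hwy]
      exact mem_ball_zero_iff.1 (hmaps (hball z hz))
    refine ⟨?_, ?_⟩
    · simp only
      rw [mul_pow, cpow_nat_inv_pow _ hn0, hwy]
      have := (hinv z (hball z hz)).1
      rwa [neg_neg] at this
    · have h2 := (hroot w hw1 hw0 (y z) (hslit z hz) h1).2
      rw [hwy, hw] at h2
      have h0 : (0 : ℂ) ∈ ball (0 : ℂ) 1 := mem_ball_self one_pos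
      have h3 : rho (-z₀) (tau (-z₀) z) = ‖z‖ := by
        have h4 := hrho1 (-z₀) hnz 0 h0 z (hball z hz)
        rw [hm0] at h4
        rw [h4, (hrho0 z).1]
      rw [h3] at h2
      exact h2

end EX
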